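import Pool.Agent.T2H09.Bor.Met

set_option autoImplicit false
open Polynomial

/-!
# Borcea's inequality for zeros that are an affine image of a regular polygon
-/

namespace Pool.Agent.T2H09.Bor
open Pool.Agent.V1148.Bor

/-- The zeros of `F` (with multiplicity, `n = deg F` of them) are the points
`s + P ζ^k + Q ζ^(-k)`, `0 ≤ k < n`, `ζ = exp (2πi/n)`: the images of the vertices of a regular
`n`-gon under a real affine map of the plane. -/
def AffineRegular (F : ℂ[X]) : Prop :=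
  ∃ s P Q : ℂ, F.roots = (Multiset.range F.natDegree).map fun k : ℕ =>
    s + P * ze F.natDegree ^ k + Q * (ze F.natDegree)⁻¹ ^ k

section
variable {F : ℂ[X]} {n : ℕ} {ζ s P Q : ℂ}

lemma form (hn0 : 0 < n) (hζ : IsPrimitiveRoot ζ n) (hPQ : P * Q ≠ 0)
    (hr : F.roots = (Multiset.range n).map fun k : ℕ => s + P * ζ ^ k + Q * ζ⁻¹ ^ k) :
    F = C F.leadingCoeff * ((dk (P * Q) n).comp (X - C s) - C (P ^ n + Q ^ n)) := by
  have h1 := (IsAlgClosed.splits F).eq_prod_roots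
  apply Polynomial.funext
  intro x
  have h2 : F.eval x = F.leadingCoeff *
      ∏ k ∈ Finset.range n, (x - s - (P * ζ ^ k + Q * ζ⁻¹ ^ k)) := by
    conv_lhs => rw [h1, hr, Multiset.map_map]
    have h3 : (Multiset.map ((fun a : ℂ => X - C a) ∘ fun k : ℕ => s + P * ζ ^ k + Q * ζ⁻¹ ^ k)
        (Multiset.range n)).prod =
        ∏ k ∈ Finset.range n, (X - C (s + P * ζ ^ k + Q * ζ⁻¹ ^ k)) := rfl
    rw [h3, eval_mul, eval_C, eval_prod]
    congr 1
    apply Finset.prod_congr rfl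
    intro k _
    rw [eval_sub, eval_X, eval_C]
    ring
  rw [h2, prod_dk hn0 hζ hPQ]
  simp only [eval_mul, eval_C, eval_sub, eval_comp, eval_X]

lemma near_bound (hn : F.natDegree = n) (hn3 : 3 ≤ n) (hζ : IsPrimitiveRoot ζ n)
    (hPQ : P * Q ≠ 0)
    (hr : F.roots = (Multiset.range n).map fun k : ℕ => s + P * ζ ^ k + Q * ζ⁻¹ ^ k)
    {z : ℂ} (hz : z ∈ F.roots) : near F z ≤ max ‖P‖ ‖Q‖ := by
  have hF := form (by omega) hζ hPQ hr
  have hn2 : 2 ≤ F.natDegree := by omega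
  have hζ0 : ζ ≠ 0 := hζ.ne_zero (by omega)
  have hζ1 : ‖ζ‖ = 1 := Complex.norm_eq_one_of_pow_eq_one hζ.pow_eq_one (by omega)
  rw [hr, Multiset.mem_map] at hz
  obtain ⟨j, -, rfl⟩ := hz
  obtain ⟨α, β, hα, hβ, k, hk1, hkn, hk⟩ := metric hn3 (P * ζ ^ j) (Q * ζ⁻¹ ^ j)
  have hmax : max ‖P * ζ ^ j‖ ‖Q * ζ⁻¹ ^ j‖ = max ‖P‖ ‖Q‖ := by
    rw [norm_mul, norm_mul, norm_pow, norm_pow, norm_inv, hζ1, inv_one, one_pow, mul_one, mul_one]
  rw [hmax] at hk
  set θ : ℝ := k * Real.pi / n with hθ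
  have hn0 : (0:ℝ) < n := by exact_mod_cast (by omega : 0 < n)
  have hjj : ζ ^ j * ζ⁻¹ ^ j = 1 := by rw [← mul_pow, mul_inv_cancel₀ hζ0, one_pow]
  have hab : (α * β) ^ 2 = P * Q := by
    rw [mul_pow, hα, hβ]
    linear_combination (P * Q) * hjj
  have hab0 : α * β ≠ 0 := by
    intro h
    rw [h] at hab
    apply hPQ
    rw [← hab]
    ring
  set e1 : ℂ := Complex.exp (θ * Complex.I) with he1
  set e2 : ℂ := Complex.exp (-(θ * Complex.I)) with he2
  have he12 : e1 * e2 = 1 := by rw [he1, he2, ← Complex.exp_add, add_neg_cancel, Complex.exp_zero]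
  have hc : e1 + e2 = 2 * (Real.cos θ : ℂ) := by
    rw [he1, he2, Complex.ofReal_cos, Complex.cos, neg_mul]
    ring
  have hs : e1 - e2 = 2 * (Real.sin θ : ℂ) * Complex.I := by
    rw [he1, he2, Complex.ofReal_sin, Complex.sin, neg_mul]
    have := Complex.I_mul_I
    linear_combination (Complex.exp (↑θ * Complex.I) - Complex.exp (-(↑θ * Complex.I))) * this
  have hθ0 : 0 < θ := by
    have : (0:ℝ) < k := by exact_mod_cast hk1
    rw [hθ]
    positivity
  have hθ1 : θ < Real.pi := by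
    have : (k:ℝ) < n := by exact_mod_cast hkn
    rw [hθ, div_lt_iff₀ hn0]
    nlinarith [Real.pi_pos]
  have hsin : 0 < Real.sin θ := Real.sin_pos_of_pos_of_lt_pi hθ0 hθ1
  have hu : e1 - e2 ≠ 0 := by
    rw [hs]
    have h1 : (Real.sin θ : ℂ) ≠ 0 := by exact_mod_cast hsin.ne'
    exact mul_ne_zero (mul_ne_zero two_ne_zero h1) Complex.I_ne_zero
  have hpow : e1 ^ n = e2 ^ n := by
    rw [he1, he2, ← Complex.exp_nat_mul, ← Complex.exp_nat_mul, Complex.exp_eq_exp_iff_exists_int]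
    refine ⟨k, ?_⟩
    have h1 : (n : ℂ) ≠ 0 := by exact_mod_cast (by omega : n ≠ 0)
    rw [hθ]
    push_cast
    field_simp
    ring
  have hder := (dk_der (α * β * e1) (α * β * e2) n).1
  have huv : (α * β * e1) * (α * β * e2) = P * Q := by
    linear_combination (α * β) ^ 2 * he12 + hab
  rw [huv] at hder
  have hsum : α * β * e1 + α * β * e2 = 2 * (Real.cos θ : ℂ) * (α * β) := by
    linear_combination (α * β) * hc
  rw [hsum, mul_pow (α * β) e1, mul_pow (α * β) e2, hpow, sub_self, mul_zero] at hder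
  have hd0 : (derivative (dk (P * Q) n)).eval (2 * (Real.cos θ : ℂ) * (α * β)) = 0 := by
    rcases mul_eq_zero.1 hder with h | h
    · exfalso
      have : α * β * (e1 - e2) = 0 := by linear_combination h
      rcases mul_eq_zero.1 this with h | h
      · exact hab0 h
      · exact hu h
    · exact h
  have hw : (s + 2 * (Real.cos θ : ℂ) * (α * β)) ∈ (derivative F).roots := by
    rw [mem_roots (der_ne hn2), IsRoot.def, hF]
    simp only [derivative_sub, derivative_C, sub_zero, derivative_mul, zero_mul, zero_add,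
      derivative_comp, derivative_X, eval_mul, eval_C, eval_comp, eval_sub, eval_X, eval_one]
    rw [add_sub_cancel_left, hd0]
    simp
  refine (near_le hw).trans ?_
  have e : s + P * ζ ^ j + Q * ζ⁻¹ ^ j - (s + 2 * (Real.cos θ : ℂ) * (α * β)) =
      P * ζ ^ j + Q * ζ⁻¹ ^ j - 2 * (Real.cos θ : ℂ) * (α * β) := by ring
  rw [e]
  exact hk

lemma norm_le_pmean' (hn : F.natDegree = n) (hn3 : 3 ≤ n) (hζ : IsPrimitiveRoot ζ n)
    (hr : F.roots = (Multiset.range n).map fun k : ℕ => s + P * ζ ^ k + Q * ζ⁻¹ ^ k) (c : ℂ) :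
    ‖P‖ ≤ pmean 1 F c := by
  have hζ0 : ζ ≠ 0 := hζ.ne_zero (by omega)
  have hζ1 : ‖ζ‖ = 1 := Complex.norm_eq_one_of_pow_eq_one hζ.pow_eq_one (by omega)
  have hn0 : (0:ℝ) < n := by exact_mod_cast (by omega : 0 < n)
  unfold pmean
  have h2 : (F.roots.map (fun z => ‖z - c‖ ^ (1:ℝ))).sum =
      ∑ k ∈ Finset.range n, ‖s + P * ζ ^ k + Q * ζ⁻¹ ^ k - c‖ := by
    rw [hr, Multiset.map_map]
    change ∑ k ∈ Finset.range n, ‖s + P * ζ ^ k + Q * ζ⁻¹ ^ k - c‖ ^ (1:ℝ) = _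
    simp only [Real.rpow_one]
  rw [h2, div_one, Real.rpow_one, hn, one_div_mul_eq_div, le_div_iff₀' hn0]
  have h3 : ∑ k ∈ Finset.range n, ζ⁻¹ ^ k * (s + P * ζ ^ k + Q * ζ⁻¹ ^ k - c) = n * P := by
    have e : ∀ k ∈ Finset.range n, ζ⁻¹ ^ k * (s + P * ζ ^ k + Q * ζ⁻¹ ^ k - c) =
        (s - c) * ζ⁻¹ ^ k + P + Q * (ζ⁻¹ ^ 2) ^ k := by
      intro k _
      have hk : ζ ^ k * ζ⁻¹ ^ k = 1 := by rw [← mul_pow, mul_inv_cancel₀ hζ0, one_pow]
      have hk2 : (ζ⁻¹ ^ 2) ^ k = ζ⁻¹ ^ k * ζ⁻¹ ^ k := by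
        rw [← pow_mul, mul_comm, pow_mul, pow_two]
      rw [hk2]
      linear_combination P * hk
    rw [Finset.sum_congr rfl e, Finset.sum_add_distrib, Finset.sum_add_distrib, ← Finset.mul_sum,
      ← Finset.mul_sum, geo (by rw [inv_pow, hζ.pow_eq_one, inv_one])
        (fun h => hζ.inv.ne_one (by omega) h),
      geo (x := ζ⁻¹ ^ 2) (by
        rw [← pow_mul, mul_comm, pow_mul, inv_pow ζ n, hζ.pow_eq_one, inv_one, one_pow])
        (hζ.inv.pow_ne_one_of_pos_of_lt (by norm_num) (by omega))]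
    simp
  calc (n:ℝ) * ‖P‖ = ‖(n:ℂ) * P‖ := by rw [norm_mul, Complex.norm_natCast]
    _ = ‖∑ k ∈ Finset.range n, ζ⁻¹ ^ k * (s + P * ζ ^ k + Q * ζ⁻¹ ^ k - c)‖ := by rw [h3]
    _ ≤ ∑ k ∈ Finset.range n, ‖ζ⁻¹ ^ k * (s + P * ζ ^ k + Q * ζ⁻¹ ^ k - c)‖ := norm_sum_le _ _
    _ = _ := by
      apply Finset.sum_congr rfl
      intro k _
      rw [norm_mul, norm_pow, norm_inv, hζ1, inv_one, one_pow, one_mul]

lemma swap (hr : F.roots = (Multiset.range n).map fun k : ℕ => s + P * ζ ^ k + Q * ζ⁻¹ ^ k) :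
    F.roots = (Multiset.range n).map fun k : ℕ => s + Q * ζ⁻¹ ^ k + P * ζ⁻¹⁻¹ ^ k := by
  rw [hr]
  apply Multiset.map_congr rfl
  intro k _
  rw [inv_inv]
  ring

lemma circle_of_zero (hn3 : 3 ≤ n) (hζ : IsPrimitiveRoot ζ n)
    (hr : F.roots = (Multiset.range n).map fun k : ℕ => s + P * ζ ^ k + 0 * ζ⁻¹ ^ k) :
    CentredCircle F := by
  have hζ1 : ‖ζ‖ = 1 := Complex.norm_eq_one_of_pow_eq_one hζ.pow_eq_one (by omega)
  refine ⟨s, ‖P‖, ?_, ?_⟩
  · intro z hz
    rw [hr, Multiset.mem_map] at hz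
    obtain ⟨j, -, rfl⟩ := hz
    have : s + P * ζ ^ j + 0 * ζ⁻¹ ^ j - s = P * ζ ^ j := by ring
    rw [this, norm_mul, norm_pow, hζ1, one_pow, mul_one]
  · rw [hr, Multiset.map_map]
    change ∑ k ∈ Finset.range n, (s + P * ζ ^ k + 0 * ζ⁻¹ ^ k - s) = 0
    have e : ∀ k ∈ Finset.range n, (s + P * ζ ^ k + 0 * ζ⁻¹ ^ k - s) = P * ζ ^ k := by
      intro k _
      ring
    rw [Finset.sum_congr rfl e, ← Finset.mul_sum, geo hζ.pow_eq_one (hζ.ne_one (by omega)),
      mul_zero]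

end

/-- **Borcea's inequality, exponent one, for affinely regular zeros.** -/
theorem borcea_affine {F : ℂ[X]} (hn3 : 3 ≤ F.natDegree) (hF : AffineRegular F) :
    hdist F ≤ sigma 1 F := by
  obtain ⟨s, P, Q, hr⟩ := hF
  have hζ := ze_prim (n := F.natDegree) (by omega)
  by_cases hQ : Q = 0
  · subst hQ
    exact borcea_circle (by omega) (circle_of_zero hn3 hζ hr)
  by_cases hP : P = 0
  · subst hP
    exact borcea_circle (by omega) (circle_of_zero hn3 hζ.inv (swap hr))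
  have hPQ : P * Q ≠ 0 := mul_ne_zero hP hQ
  obtain ⟨z, hz, hzn⟩ := hdist_attained (exists_root (F := F) (by omega))
  rw [hzn]
  refine (near_bound rfl hn3 hζ hPQ hr hz).trans (le_ciInf fun c => max_le ?_ ?_)
  · exact norm_le_pmean' rfl hn3 hζ hr c
  · exact norm_le_pmean' rfl hn3 hζ.inv (swap hr) c

/-- The zeros of every cubic polynomial are affinely regular. -/
lemma cubic_affine {F : ℂ[X]} (hn : F.natDegree = 3) : AffineRegular F := by
  have hcard := (IsAlgClosed.splits F).natDegree_eq_card_roots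
  rw [hn] at hcard
  obtain ⟨x, y, z, hxyz⟩ := Multiset.card_eq_three.1 hcard.symm
  have hζ := ze_prim (n := 3) (by norm_num)
  have h3 : ze 3 ^ 3 = 1 := hζ.pow_eq_one
  have h0 : ze 3 ≠ 0 := hζ.ne_zero (by norm_num)
  have hinv : (ze 3)⁻¹ = ze 3 ^ 2 := by
    apply mul_left_cancel₀ h0
    rw [mul_inv_cancel₀ h0]
    linear_combination (-1) * h3
  have hs : 1 + ze 3 + ze 3 ^ 2 = 0 := by
    have := geo h3 (hζ.ne_one (by norm_num))
    rw [Finset.sum_range_succ, Finset.sum_range_succ, Finset.sum_range_succ, Finset.sum_range_zero]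
      at this
    linear_combination this
  set w := ze 3 with hw
  refine ⟨(x + y + z) / 3, (x + w ^ 2 * y + w * z) / 3, (x + w * y + w ^ 2 * z) / 3, ?_⟩
  rw [hn, hinv, hxyz]
  have hm : Multiset.range 3 = {0, 1, 2} := rfl
  rw [hm]
  simp only [Multiset.insert_eq_cons, Multiset.map_cons, Multiset.map_singleton, pow_zero, mul_one,
    pow_one]
  have e0 : (x + y + z) / 3 + (x + w ^ 2 * y + w * z) / 3 + (x + w * y + w ^ 2 * z) / 3 = x := by
    linear_combination (y + z) / 3 * hs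
  have e1 : (x + y + z) / 3 + (x + w ^ 2 * y + w * z) / 3 * w +
      (x + w * y + w ^ 2 * z) / 3 * w ^ 2 = y := by
    linear_combination (x + z) / 3 * hs + (2 * y / 3 + z * (w - 1) / 3 + z / 3) * h3
  have e2 : (x + y + z) / 3 + (x + w ^ 2 * y + w * z) / 3 * w ^ 2 +
      (x + w * y + w ^ 2 * z) / 3 * (w ^ 2) ^ 2 = z := by
    linear_combination (x + y) / 3 * hs + (z / 3 + z * (w ^ 3 + 1) / 3 + x * w / 3 + y * w / 3 +
      y * w ^ 2 / 3) * h3
  rw [e0, e1, e2]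

/-- Every quadratic polynomial is pure. -/
lemma quadratic_pure {F : ℂ[X]} (hn : F.natDegree = 2) : IsPure F := by
  have hF := F.as_sum_range_C_mul_X_pow
  rw [hn, Finset.sum_range_succ, Finset.sum_range_succ, Finset.sum_range_succ,
    Finset.sum_range_zero] at hF
  have ha : F.coeff 2 ≠ 0 := by
    rw [← hn]
    have : F ≠ 0 := by rintro rfl; simp at hn
    exact leadingCoeff_ne_zero.2 this
  refine ⟨F.coeff 2, F.coeff 1 ^ 2 / (4 * F.coeff 2) - F.coeff 0, -(F.coeff 1 / (2 * F.coeff 2)),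
    ha, ?_⟩
  rw [hn]
  apply Polynomial.funext
  intro x
  conv_lhs => rw [hF]
  simp only [eval_add, eval_mul, eval_C, eval_pow, eval_X, eval_sub, eval_zero]
  field_simp
  ring

end Pool.Agent.T2H09.Bor
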