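import Pool.Agent.V1148.Bor.K

set_option autoImplicit false
open Polynomial

/-!
# Polynomials whose zeros are an affine image of a regular polygon: Dickson polynomials
-/

namespace Pool.Agent.T2H09.Bor

/-- The Dickson polynomial of the first kind. -/
noncomputable def dk (a : ℂ) : ℕ → ℂ[X]
  | 0 => 2
  | 1 => X
  | n + 2 => X * dk a (n + 1) - C a * dk a n

lemma dk_eval (u v : ℂ) : ∀ n : ℕ, (dk (u * v) n).eval (u + v) = u ^ n + v ^ n ∧
    (dk (u * v) (n + 1)).eval (u + v) = u ^ (n + 1) + v ^ (n + 1)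
  | 0 => by
    constructor
    · simp [dk]; norm_num
    · simp [dk]
  | n + 1 => by
    obtain ⟨h0, h1⟩ := dk_eval u v n
    refine ⟨h1, ?_⟩
    rw [dk, eval_sub, eval_mul, eval_mul, eval_X, eval_C, h0, h1]
    ring

lemma dk_der (u v : ℂ) : ∀ n : ℕ,
    (u - v) * (derivative (dk (u * v) n)).eval (u + v) = n * (u ^ n - v ^ n) ∧
    (u - v) * (derivative (dk (u * v) (n + 1))).eval (u + v) =
      (n + 1 : ℂ) * (u ^ (n + 1) - v ^ (n + 1))
  | 0 => by
    constructor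
    · simp [dk]
    · simp [dk]
  | n + 1 => by
    obtain ⟨h0, h1⟩ := dk_der u v n
    obtain ⟨e0, e1⟩ := dk_eval u v n
    refine ⟨by push_cast; exact h1, ?_⟩
    have hd : (derivative (dk (u * v) (n + 1 + 1))).eval (u + v) =
        (dk (u * v) (n + 1)).eval (u + v) + (u + v) * (derivative (dk (u * v) (n + 1))).eval (u + v) -
          (u * v) * (derivative (dk (u * v) n)).eval (u + v) := by
      rw [dk]
      simp only [derivative_sub, derivative_mul, derivative_X, derivative_C, eval_sub, eval_add,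
        eval_mul, eval_X, eval_C, one_mul, zero_mul, zero_add]
    rw [hd, e1]
    push_cast
    linear_combination (u + v) * h1 - (u * v) * h0

lemma exists_uv (x a : ℂ) : ∃ u v : ℂ, u + v = x ∧ u * v = a := by
  obtain ⟨d, hd⟩ := IsAlgClosed.exists_pow_nat_eq (x ^ 2 - 4 * a) (n := 2) (by norm_num)
  refine ⟨(x + d) / 2, (x - d) / 2, by ring, ?_⟩
  linear_combination (-1 / 4) * hd

/-- The standard primitive `n`-th root of unity. -/
noncomputable def ze (n : ℕ) : ℂ := Complex.exp (2 * Real.pi * Complex.I / n)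

lemma ze_prim {n : ℕ} (hn : n ≠ 0) : IsPrimitiveRoot (ze n) n := Complex.isPrimitiveRoot_exp n hn

lemma prod_eq {n : ℕ} (hn : 0 < n) {ζ : ℂ} (hζ : IsPrimitiveRoot ζ n) (u P : ℂ) :
    ∏ k ∈ Finset.range n, (u - ζ ^ k * P) = u ^ n - P ^ n := by
  have h := X_pow_sub_C_eq_prod hζ hn (α := P) (a := P ^ n) rfl
  have h2 := congrArg (eval u) h
  rw [eval_sub, eval_pow, eval_X, eval_C, eval_prod] at h2
  rw [h2]
  apply Finset.prod_congr rfl
  intro k _
  rw [eval_sub, eval_X, eval_C]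

lemma prod_dk {n : ℕ} (hn : 0 < n) {ζ : ℂ} (hζ : IsPrimitiveRoot ζ n) {P Q : ℂ} (hPQ : P * Q ≠ 0)
    (x : ℂ) :
    ∏ k ∈ Finset.range n, (x - (P * ζ ^ k + Q * ζ⁻¹ ^ k)) =
      (dk (P * Q) n).eval x - (P ^ n + Q ^ n) := by
  obtain ⟨u, v, hx, huv⟩ := exists_uv x (P * Q)
  have hu : u ≠ 0 := by
    rintro rfl
    rw [zero_mul] at huv
    exact hPQ huv.symm
  have hζ0 : ζ ≠ 0 := hζ.ne_zero hn.ne'
  have h1 := prod_eq hn hζ u P
  have h2 := prod_eq hn hζ.inv u Q
  have h3 : u ^ n * ∏ k ∈ Finset.range n, (x - (P * ζ ^ k + Q * ζ⁻¹ ^ k)) =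
      (u ^ n - P ^ n) * (u ^ n - Q ^ n) := by
    rw [← h1, ← h2, ← Finset.prod_mul_distrib]
    have : u ^ n = ∏ k ∈ Finset.range n, u := by simp
    rw [this, ← Finset.prod_mul_distrib]
    apply Finset.prod_congr rfl
    intro k _
    have hk : ζ ^ k * ζ⁻¹ ^ k = 1 := by rw [← mul_pow, mul_inv_cancel₀ hζ0, one_pow]
    rw [← hx]
    linear_combination huv + (-(P * Q)) * hk
  have h4 := (dk_eval u v n).1
  rw [huv, hx] at h4
  have h5 : u ^ n * v ^ n = P ^ n * Q ^ n := by rw [← mul_pow, huv, mul_pow]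
  have hun : u ^ n ≠ 0 := pow_ne_zero _ hu
  apply mul_left_cancel₀ hun
  rw [h3, h4]
  linear_combination (-1) * h5

lemma geo {n : ℕ} {x : ℂ} (hx : x ^ n = 1) (h1 : x ≠ 1) : ∑ k ∈ Finset.range n, x ^ k = 0 := by
  rw [geom_sum_eq h1, hx, sub_self, zero_div]

end Pool.Agent.T2H09.Bor
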