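import Pool.Agent.T2H09.Bor.Dk

set_option autoImplicit false
open Polynomial

/-!
# The metric estimate for Dickson polynomials
-/

namespace Pool.Agent.T2H09.Bor

lemma real_ineq {a b κ c : ℝ} (hb : 0 ≤ b) (hab : b ≤ a) (hκ : 0 ≤ κ) (hc : 0 ≤ c)
    (h : |κ - c| ≤ 1 / 2) :
    b ^ 4 + 4 * (κ * (a * b)) ^ 2 - 2 * a ^ 2 * b ^ 2 + 4 * c ^ 2 * (a ^ 2 * b ^ 2) -
      4 * c * (κ * (a * b)) * (a ^ 2 + b ^ 2) ≤ 0 := by
  have ha : 0 ≤ a := hb.trans hab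
  have h1 : (κ - c) ^ 2 ≤ 1 / 4 := by
    have := sq_le_sq' (by linarith [abs_nonneg (κ - c)] : -(1 / 2) ≤ |κ - c|) h
    rw [sq_abs] at this
    linarith
  have e : b ^ 4 + 4 * (κ * (a * b)) ^ 2 - 2 * a ^ 2 * b ^ 2 + 4 * c ^ 2 * (a ^ 2 * b ^ 2) -
      4 * c * (κ * (a * b)) * (a ^ 2 + b ^ 2) =
      b ^ 2 * (b ^ 2 - a ^ 2) + a ^ 2 * b ^ 2 * (4 * (κ - c) ^ 2 - 1) -
        4 * (c * κ) * (a * b) * (a - b) ^ 2 := by ring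
  rw [e]
  have h2 : b ^ 2 * (b ^ 2 - a ^ 2) ≤ 0 := by
    apply mul_nonpos_of_nonneg_of_nonpos (sq_nonneg b)
    nlinarith
  have h3 : a ^ 2 * b ^ 2 * (4 * (κ - c) ^ 2 - 1) ≤ 0 := by
    apply mul_nonpos_of_nonneg_of_nonpos (by positivity)
    linarith
  have h4 : 0 ≤ 4 * (c * κ) * (a * b) * (a - b) ^ 2 := by positivity
  linarith

lemma norm_id (α β : ℂ) (c : ℝ) :
    ‖α ^ 2 + β ^ 2 - 2 * (c : ℂ) * (α * β)‖ ^ 2 =
      ‖α‖ ^ 4 + ‖β‖ ^ 4 + 4 * (α * (starRingEnd ℂ) β).re ^ 2 - 2 * ‖α‖ ^ 2 * ‖β‖ ^ 2 +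
        4 * c ^ 2 * (‖α‖ ^ 2 * ‖β‖ ^ 2) -
        4 * c * (α * (starRingEnd ℂ) β).re * (‖α‖ ^ 2 + ‖β‖ ^ 2) := by
  have h4 : ∀ z : ℂ, ‖z‖ ^ 4 = (‖z‖ ^ 2) ^ 2 := fun z => by ring
  rw [h4 α, h4 β, ← Complex.normSq_eq_norm_sq, ← Complex.normSq_eq_norm_sq,
    ← Complex.normSq_eq_norm_sq]
  simp only [Complex.normSq_apply, pow_two, Complex.add_re, Complex.add_im, Complex.sub_re,
    Complex.sub_im, Complex.mul_re, Complex.mul_im, Complex.conj_re, Complex.conj_im,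
    Complex.ofReal_re, Complex.ofReal_im, Complex.re_ofNat, Complex.im_ofNat]
  ring

/-- The two real numbers `cos (π/n)` and `cos (⌊n/2⌋ π/n)` come within `1/2` of each
`κ ∈ [0, 1]`. -/
lemma choose_k {n : ℕ} (hn : 3 ≤ n) {κ : ℝ} (h0 : 0 ≤ κ) (h1 : κ ≤ 1) :
    ∃ k : ℕ, 1 ≤ k ∧ k < n ∧ 0 ≤ Real.cos (k * Real.pi / n) ∧
      |κ - Real.cos (k * Real.pi / n)| ≤ 1 / 2 := by
  have hn0 : (0:ℝ) < n := by exact_mod_cast (by omega : 0 < n)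
  have hn3 : (3:ℝ) ≤ n := by exact_mod_cast hn
  have hpi := Real.pi_pos
  rcases le_or_gt (1 / 2) κ with h | h
  · refine ⟨1, le_rfl, by omega, ?_⟩
    have hc : 1 / 2 ≤ Real.cos (((1:ℕ) : ℝ) * Real.pi / n) := by
      rw [← Real.cos_pi_div_three, Nat.cast_one, one_mul]
      apply Real.cos_le_cos_of_nonneg_of_le_pi (by positivity)
      · linarith
      · apply div_le_div_of_nonneg_left hpi.le (by norm_num) hn3
    have hc1 := Real.cos_le_one (((1:ℕ) : ℝ) * Real.pi / n)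
    refine ⟨by linarith, ?_⟩
    rw [abs_le]
    constructor <;> linarith
  · refine ⟨n / 2, by omega, by omega, ?_⟩
    have hk1 : (((n / 2 : ℕ)) : ℝ) ≤ n / 2 := Nat.cast_div_le
    have hk2 : (n : ℝ) / 2 - 1 / 2 ≤ ((n / 2 : ℕ) : ℝ) := by
      have : n ≤ 2 * (n / 2) + 1 := by omega
      have h' : (n : ℝ) ≤ 2 * ((n / 2 : ℕ) : ℝ) + 1 := by exact_mod_cast this
      linarith
    have ha1 : ((n / 2 : ℕ) : ℝ) * Real.pi / n ≤ Real.pi / 2 := by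
      rw [div_le_iff₀ hn0]
      nlinarith
    have ha2 : Real.pi / 3 ≤ ((n / 2 : ℕ) : ℝ) * Real.pi / n := by
      rw [le_div_iff₀ hn0]
      nlinarith
    have hc0 : 0 ≤ Real.cos (((n / 2 : ℕ) : ℝ) * Real.pi / n) :=
      Real.cos_nonneg_of_mem_Icc ⟨by linarith, ha1⟩
    have hc1 : Real.cos (((n / 2 : ℕ) : ℝ) * Real.pi / n) ≤ 1 / 2 := by
      rw [← Real.cos_pi_div_three]
      apply Real.cos_le_cos_of_nonneg_of_le_pi (by positivity)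
      · linarith
      · exact ha2
    refine ⟨hc0, ?_⟩
    rw [abs_le]
    constructor <;> linarith

lemma metric_aux {n : ℕ} (hn : 3 ≤ n) {α β : ℂ} (hre : 0 ≤ (α * (starRingEnd ℂ) β).re)
    (hab : ‖β‖ ≤ ‖α‖) :
    ∃ k : ℕ, 1 ≤ k ∧ k < n ∧
      ‖α ^ 2 + β ^ 2 - 2 * (Real.cos (k * Real.pi / n) : ℂ) * (α * β)‖ ≤ ‖α‖ ^ 2 := by
  have hρ : (α * (starRingEnd ℂ) β).re ≤ ‖α‖ * ‖β‖ := by
    have := Complex.re_le_norm (α * (starRingEnd ℂ) β)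
    rwa [norm_mul, Complex.norm_conj] at this
  obtain ⟨κ, hκ0, hκ1, hκ⟩ : ∃ κ : ℝ, 0 ≤ κ ∧ κ ≤ 1 ∧
      (α * (starRingEnd ℂ) β).re = κ * (‖α‖ * ‖β‖) := by
    rcases (mul_nonneg (norm_nonneg α) (norm_nonneg β)).eq_or_lt with h | h
    · refine ⟨0, le_rfl, zero_le_one, ?_⟩
      rw [zero_mul]
      linarith
    · refine ⟨(α * (starRingEnd ℂ) β).re / (‖α‖ * ‖β‖), by positivity, ?_, ?_⟩
      · rw [div_le_one h]
        exact hρ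
      · exact (div_mul_cancel₀ _ h.ne').symm
  obtain ⟨k, hk1, hkn, hc0, hc⟩ := choose_k hn hκ0 hκ1
  refine ⟨k, hk1, hkn, ?_⟩
  have h1 := norm_id α β (Real.cos (k * Real.pi / n))
  have h2 := real_ineq (norm_nonneg β) hab hκ0 hc0 hc
  rw [hκ] at h1
  have h3 : ‖α ^ 2 + β ^ 2 - 2 * (Real.cos (k * Real.pi / n) : ℂ) * (α * β)‖ ^ 2 ≤
      (‖α‖ ^ 2) ^ 2 := by
    rw [h1]
    nlinarith
  exact (sq_le_sq₀ (norm_nonneg _) (by positivity)).1 h3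

lemma metric {n : ℕ} (hn : 3 ≤ n) (P Q : ℂ) :
    ∃ α β : ℂ, α ^ 2 = P ∧ β ^ 2 = Q ∧ ∃ k : ℕ, 1 ≤ k ∧ k < n ∧
      ‖P + Q - 2 * (Real.cos (k * Real.pi / n) : ℂ) * (α * β)‖ ≤ max ‖P‖ ‖Q‖ := by
  obtain ⟨α, hα⟩ := IsAlgClosed.exists_pow_nat_eq P (n := 2) (by norm_num)
  obtain ⟨β, hβ⟩ := IsAlgClosed.exists_pow_nat_eq Q (n := 2) (by norm_num)
  have hP : ‖P‖ = ‖α‖ ^ 2 := by rw [← hα, norm_pow]
  have hQ : ‖Q‖ = ‖β‖ ^ 2 := by rw [← hβ, norm_pow]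
  obtain ⟨β', hβ', hre⟩ : ∃ β' : ℂ, β' ^ 2 = Q ∧ 0 ≤ (α * (starRingEnd ℂ) β').re := by
    rcases le_total 0 (α * (starRingEnd ℂ) β).re with h | h
    · exact ⟨β, hβ, h⟩
    · refine ⟨-β, by rw [neg_sq, hβ], ?_⟩
      rw [map_neg, mul_neg, Complex.neg_re]
      linarith
  have hQ' : ‖Q‖ = ‖β'‖ ^ 2 := by rw [← hβ', norm_pow]
  refine ⟨α, β', hα, hβ', ?_⟩
  rcases le_total ‖β'‖ ‖α‖ with h | h
  · obtain ⟨k, h1, h2, h3⟩ := metric_aux hn hre h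
    refine ⟨k, h1, h2, ?_⟩
    rw [← hα, ← hβ']
    refine h3.trans ?_
    rw [norm_pow]
    exact le_max_left _ _
  · have hre' : 0 ≤ (β' * (starRingEnd ℂ) α).re := by
      have : β' * (starRingEnd ℂ) α = (starRingEnd ℂ) (α * (starRingEnd ℂ) β') := by
        rw [map_mul, Complex.conj_conj, mul_comm]
      rw [this, Complex.conj_re]
      exact hre
    obtain ⟨k, h1, h2, h3⟩ := metric_aux hn hre' h
    refine ⟨k, h1, h2, ?_⟩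
    rw [← hα, ← hβ', add_comm, mul_comm α β']
    refine h3.trans ?_
    rw [norm_pow β']
    exact le_max_right _ _

end Pool.Agent.T2H09.Bor
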