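import Pool.Agent.V1148.Bor.K
import Pool.Agent.H32R3.PV.Main

set_option autoImplicit false
open Polynomial
open scoped Classical

/-!
# A failure of `h < σ_p`, `p > 1`, in large degree is nearly circular
-/

namespace Pool.Agent.T2H09.Bor
open Pool.Agent.V1148.Bor

/-- The constant of the starting library, tending to one. -/
noncomputable def Cn (n : ℕ) : ℝ := 1 + 2 ^ 29 * (n : ℝ) ^ (-(1 / 6) : ℝ)

lemma Cn_ge (n : ℕ) : 1 ≤ Cn n := by
  unfold Cn
  have : 0 ≤ (n : ℝ) ^ (-(1 / 6) : ℝ) := Real.rpow_nonneg (Nat.cast_nonneg n) _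
  linarith

lemma pmean_one (F : ℂ[X]) (c : ℂ) :
    pmean 1 F c = (F.roots.map fun z => ‖z - c‖).sum / (F.natDegree : ℝ) := by
  unfold pmean
  simp only [Real.rpow_one, div_one]
  rw [one_div_mul_eq_div]

lemma hdist_le {F : ℂ[X]} (hn : 2 ≤ F.natDegree) : hdist F ≤ Cn F.natDegree * sigma 1 F := by
  obtain ⟨z, hz, hzn⟩ := hdist_attained (exists_root hn)
  have h0 : F ≠ 0 := by rintro rfl; simp at hn
  obtain ⟨w, hw, hle⟩ := Pool.Agent.H32R3.PV.dist_bound hn ((mem_roots h0).1 hz)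
  obtain ⟨c, hc⟩ := exists_min one_pos (exists_root hn)
  rw [hzn, hc, pmean_one]
  exact (near_le ((mem_roots (der_ne hn)).2 hw)).trans (hle c)

/-- Quantitative strict convexity. -/
lemma conv_gap {p : ℝ} (hp : 1 < p) {e s : ℝ} (he : -1 < e) (he0 : e ≠ 0) (hs : -1 ≤ s)
    (h : 1 ≤ s / e) : (1 + e) ^ p - 1 - p * e ≤ (1 + s) ^ p - 1 - p * s := by
  have hs0 : s ≠ 0 := by
    rintro rfl
    rw [zero_div] at h
    linarith
  set t : ℝ := e / s with ht
  have hst : s / e = t⁻¹ := by rw [ht, inv_div]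
  have htpos : 0 < t := by
    have : 0 < t⁻¹ := by rw [← hst]; linarith
    exact inv_pos.1 this
  have ht1 : t ≤ 1 := by
    have : 1 ≤ t⁻¹ := by rw [← hst]; exact h
    exact (one_le_inv₀ htpos).1 this
  have hts : t * s = e := by rw [ht]; field_simp
  have hx : (1:ℝ) ∈ Set.Ici (0:ℝ) := Set.mem_Ici.2 zero_le_one
  have hy : 1 + s ∈ Set.Ici (0:ℝ) := by
    rw [Set.mem_Ici]
    linarith
  have hconv := (convexOn_rpow hp.le).2 hx hy (sub_nonneg.2 ht1) htpos.le
    (by ring : 1 - t + t = 1)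
  simp only [smul_eq_mul, mul_one, Real.one_rpow] at hconv
  have e1 : 1 - t + t * (1 + s) = 1 + e := by rw [← hts]; ring
  rw [e1] at hconv
  have hB := one_add_mul_self_le_rpow_one_add hs hp.le
  nlinarith

theorem nearly {p : ℝ} (hp : 1 < p) {ε : ℝ} (hε : 0 < ε) (hε1 : ε < 1) :
    ∃ K : ℝ, ∀ F : ℂ[X], 2 ≤ F.natDegree → sigma p F ≤ hdist F →
      ∀ c : ℂ, pmean p F c = sigma p F →
        ((F.roots.filter fun z => ε * sigma p F < |‖z - c‖ - sigma p F|).card : ℝ) ≤
          K * (F.natDegree : ℝ) ^ (5 / 6 : ℝ) := by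
  set γ : ℝ := min ((1 + ε) ^ p - 1 - p * ε) ((1 + -ε) ^ p - 1 - p * (-ε)) with hγ
  have hγ0 : 0 < γ := by
    have h1 := one_add_mul_self_lt_rpow_one_add (s := ε) (by linarith) hε.ne' hp
    have h2 := one_add_mul_self_lt_rpow_one_add (s := -ε) (by linarith) (by linarith) hp
    exact lt_min (by linarith) (by linarith)
  refine ⟨p / γ * 2 ^ 29, fun F hn hh c hc => ?_⟩
  have hn2 : (2:ℝ) ≤ (F.natDegree : ℝ) := by exact_mod_cast hn
  have hn0 : (0:ℝ) < (F.natDegree : ℝ) := by linarith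
  have hp0 : 0 < p := by linarith
  have hσ0 : 0 ≤ sigma p F := le_ciInf fun c => pmean_nonneg p F c
  have hK : 0 ≤ p / γ * 2 ^ 29 * (F.natDegree : ℝ) ^ (5 / 6 : ℝ) := by positivity
  rcases hσ0.eq_or_lt with hσ | hσ
  · have hempty : (F.roots.filter fun z => ε * sigma p F < |‖z - c‖ - sigma p F|) = 0 := by
      rw [Multiset.filter_eq_nil]
      intro z hz hbad
      have h1 := norm_le_pmean (by omega) hp0 c hz
      rw [hc, ← hσ, mul_zero] at h1
      rw [← hσ, mul_zero, sub_zero, abs_of_nonneg (norm_nonneg _)] at hbad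
      linarith
    rw [hempty]
    simpa using hK
  obtain ⟨z, hz⟩ := exists_fin (F := F)
  set σ := sigma p F with hσd
  have hsum : ∀ f : ℂ → ℝ, (F.roots.map f).sum = ∑ i, f (z i) := by
    intro f
    rw [hz, Multiset.map_map]
    rfl
  -- the sum of the `p`-th powers
  have hP : ∑ i, (‖z i - c‖ / σ) ^ p = (F.natDegree : ℝ) := by
    have h1 : (1 / (F.natDegree : ℝ)) * ∑ i, ‖z i - c‖ ^ p = σ ^ p := by
      have h2 := hc
      unfold pmean at h2
      rw [hsum] at h2
      have h3 : 0 ≤ (1 / (F.natDegree : ℝ)) * ∑ i, ‖z i - c‖ ^ p := by positivity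
      rw [← h2, ← Real.rpow_mul h3, one_div_mul_cancel hp0.ne', Real.rpow_one]
    have h4 : ∀ i, (‖z i - c‖ / σ) ^ p = ‖z i - c‖ ^ p / σ ^ p := fun i =>
      Real.div_rpow (norm_nonneg _) hσ.le p
    simp only [h4]
    rw [← Finset.sum_div, div_eq_iff (Real.rpow_pos_of_pos hσ p).ne', ← h1]
    field_simp
  -- the first moment
  have h1m : (F.natDegree : ℝ) ≤ Cn F.natDegree * ∑ i, ‖z i - c‖ / σ := by
    have h1 := hh.trans ((hdist_le hn).trans
      (mul_le_mul_of_nonneg_left (sigma_le 1 F c) (zero_le_one.trans (Cn_ge _))))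
    rw [pmean_one, hsum] at h1
    rw [← Finset.sum_div]
    rw [mul_div_assoc', le_div_iff₀ hσ]
    rw [mul_div_assoc', le_div_iff₀ hn0] at h1
    linarith
  have hbern : ∀ i, 1 + p * (‖z i - c‖ / σ - 1) ≤ (‖z i - c‖ / σ) ^ p := by
    intro i
    have h0 : 0 ≤ ‖z i - c‖ / σ := by positivity
    have h1 := one_add_mul_self_le_rpow_one_add (s := ‖z i - c‖ / σ - 1) (by linarith) hp.le
    rwa [add_sub_cancel] at h1
  have hle1 : ∑ i, ‖z i - c‖ / σ ≤ (F.natDegree : ℝ) := by
    have h1 := Finset.sum_le_sum fun (i : Fin F.natDegree) (_ : i ∈ Finset.univ) => hbern i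
    rw [hP, Finset.sum_add_distrib, ← Finset.mul_sum, Finset.sum_sub_distrib, Finset.sum_const,
      Finset.card_univ, Fintype.card_fin, nsmul_eq_mul, mul_one] at h1
    nlinarith
  set bad : Finset (Fin F.natDegree) :=
    Finset.univ.filter fun i => ε * σ < |‖z i - c‖ - σ| with hbad
  have hcard : (F.roots.filter fun z => ε * σ < |‖z - c‖ - σ|).card = bad.card := by
    rw [hz, Multiset.filter_map, Multiset.card_map]
    rfl
  have hgap : ∀ i, 1 + p * (‖z i - c‖ / σ - 1) + (if i ∈ bad then γ else 0) ≤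
      (‖z i - c‖ / σ) ^ p := by
    intro i
    by_cases hi : i ∈ bad
    · rw [if_pos hi]
      have h0 : 0 ≤ ‖z i - c‖ / σ := by positivity
      have h2 : ε * σ < |‖z i - c‖ - σ| := (Finset.mem_filter.1 hi).2
      have h3 : ε < |‖z i - c‖ / σ - 1| := by
        have : ‖z i - c‖ / σ - 1 = (‖z i - c‖ - σ) / σ := by field_simp
        rw [this, abs_div, abs_of_pos hσ, lt_div_iff₀ hσ]
        exact h2
      rcases lt_abs.1 h3 with h4 | h4
      · have h5 := conv_gap hp (e := ε) (s := ‖z i - c‖ / σ - 1) (by linarith) hε.ne'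
          (by linarith) (by rw [le_div_iff₀ hε]; linarith)
        rw [add_sub_cancel] at h5
        have h6 := min_le_left ((1 + ε) ^ p - 1 - p * ε) ((1 + -ε) ^ p - 1 - p * (-ε))
        rw [← hγ] at h6
        linarith
      · have h5 := conv_gap hp (e := -ε) (s := ‖z i - c‖ / σ - 1) (by linarith) (by linarith)
          (by linarith) (by rw [div_neg, ← neg_div, le_div_iff₀ hε]; linarith)
        rw [add_sub_cancel] at h5
        have h6 := min_le_right ((1 + ε) ^ p - 1 - p * ε) ((1 + -ε) ^ p - 1 - p * (-ε))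
        rw [← hγ] at h6
        linarith
    · rw [if_neg hi, add_zero]
      exact hbern i
  have htot := Finset.sum_le_sum fun (i : Fin F.natDegree) (_ : i ∈ Finset.univ) => hgap i
  rw [hP, Finset.sum_add_distrib, Finset.sum_add_distrib, ← Finset.mul_sum,
    Finset.sum_sub_distrib, Finset.sum_const, Finset.card_univ, Fintype.card_fin, nsmul_eq_mul,
    mul_one, Finset.sum_ite_mem, Finset.univ_inter, Finset.sum_const, nsmul_eq_mul] at htot
  rw [hcard]
  set A := ∑ i, ‖z i - c‖ / σ with hA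
  have h6 : (bad.card : ℝ) * γ ≤ p * ((Cn F.natDegree - 1) * (F.natDegree : ℝ)) := by
    have h7 : (bad.card : ℝ) * γ ≤ p * ((F.natDegree : ℝ) - A) := by linarith
    have h8 : (F.natDegree : ℝ) - A ≤ (Cn F.natDegree - 1) * (F.natDegree : ℝ) := by
      have := Cn_ge F.natDegree
      nlinarith
    exact h7.trans (mul_le_mul_of_nonneg_left h8 hp0.le)
  have h9 : (Cn F.natDegree - 1) * (F.natDegree : ℝ) =
      2 ^ 29 * (F.natDegree : ℝ) ^ (5 / 6 : ℝ) := by
    unfold Cn
    have : (F.natDegree : ℝ) ^ (5 / 6 : ℝ) =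
        (F.natDegree : ℝ) ^ (-(1 / 6) : ℝ) * (F.natDegree : ℝ) := by
      conv_rhs => rw [← Real.rpow_one (F.natDegree : ℝ), ← Real.rpow_mul hn0.le,
        ← Real.rpow_add hn0]
      norm_num
    rw [this]
    ring
  rw [h9] at h6
  rw [← le_div_iff₀ hγ0] at h6
  calc (bad.card : ℝ) ≤ _ := h6
    _ = _ := by ring

end Pool.Agent.T2H09.Bor
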