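import Pool.Agent.T2H09.Bor.Aff

set_option autoImplicit false
open Polynomial Filter Topology

/-!
# The critical exponent of a polynomial
-/

namespace Pool.Agent.T2H09.Bor
open Pool.Agent.V1148.Bor

/-- Each `F` not of the form `a (z - c)^n - b` has one critical exponent `p₀`: below it
`σ_p < h`, above it `h < σ_p`. -/
theorem threshold {F : ℂ[X]} (hn : 2 ≤ F.natDegree) (hF : ¬ IsPure F) :
    ∃ p₀ : ℝ, 0 ≤ p₀ ∧ (∀ p : ℝ, p₀ < p → hdist F < sigma p F) ∧
      (∀ p : ℝ, 0 < p → p < p₀ → sigma p F < hdist F) ∧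
      (∀ p : ℝ, 0 < p → (hdist F = sigma p F ↔ p = p₀)) := by
  set S : Set ℝ := {p | 0 < p ∧ hdist F ≤ sigma p F} with hS
  have hne : S.Nonempty := by
    obtain ⟨P, -, hP0, hP⟩ := exists_large hn hF 0
    exact ⟨P, hP0, hP⟩
  have hbdd : BddBelow S := ⟨0, fun p hp => hp.1.le⟩
  have h0 : 0 ≤ sInf S := le_csInf hne fun p hp => hp.1.le
  have hA : ∀ p : ℝ, sInf S < p → hdist F < sigma p F := by
    intro p hp
    obtain ⟨q, hq, hqp⟩ := exists_lt_of_csInf_lt hne hp
    refine lt_of_le_of_ne (hq.2.trans (sigma_mono (by omega) hq.1 hqp.le)) fun hE => ?_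
    exact hF (equality hn hq.1 hqp hq.2 hE)
  have hB : ∀ p : ℝ, 0 < p → p < sInf S → sigma p F < hdist F := by
    intro p hp hlt
    by_contra h
    push Not at h
    exact absurd (csInf_le hbdd ⟨hp, h⟩) (not_le.2 hlt)
  refine ⟨sInf S, h0, hA, hB, fun p hp => ⟨fun hE => ?_, fun hE => ?_⟩⟩
  · rcases lt_trichotomy p (sInf S) with h | h | h
    · exact absurd hE (hB p hp h).ne'
    · exact h
    · exact absurd hE (hA p h).ne
  · have hc := (sigma_cont hn hp).tendsto
    apply le_antisymm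
    · have h1 : Tendsto (fun q => sigma q F) (𝓝[>] p) (𝓝 (sigma p F)) :=
        hc.mono_left nhdsWithin_le_nhds
      refine ge_of_tendsto h1 ?_
      filter_upwards [self_mem_nhdsWithin] with q hq
      exact (hA q (by rw [← hE]; exact hq)).le
    · have h1 : Tendsto (fun q => sigma q F) (𝓝[<] p) (𝓝 (sigma p F)) :=
        hc.mono_left nhdsWithin_le_nhds
      refine le_of_tendsto h1 ?_
      filter_upwards [Ioo_mem_nhdsLT hp] with q hq
      exact (hB q hq.1 (by rw [← hE]; exact hq.2)).le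

end Pool.Agent.T2H09.Bor
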