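import Pool.Agent.T2H09.Bor.Aff

set_option autoImplicit false
open Polynomial

/-!
# Borcea's inequality for `A (z - s)^(2m) + B (z - s)^m + D`
-/

namespace Pool.Agent.T2H09.Bor
open Pool.Agent.V1148.Bor

/-- `F = A (z - s)^(2m) + B (z - s)^m + D` with `m ≥ 1`, `A ≠ 0`. -/
def TwoOrbits (F : ℂ[X]) : Prop :=
  ∃ (s A B D : ℂ) (m : ℕ), 1 ≤ m ∧ A ≠ 0 ∧
    F = C A * (X - C s) ^ (2 * m) + C B * (X - C s) ^ m + C D

lemma exists_root_re {W : ℂ} (hW : 0 ≤ W.re) {m : ℕ} (hm : 1 ≤ m) :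
    ∃ w : ℂ, w ^ m = W ∧ ∀ j < m, 0 ≤ (w ^ j).re := by
  by_cases h0 : W = 0
  · refine ⟨0, by rw [h0]; exact zero_pow (by omega), fun j _ => ?_⟩
    by_cases hj : j = 0
    · simp [hj]
    · simp [zero_pow hj]
  have hm0 : (m : ℂ) ≠ 0 := by exact_mod_cast (by omega : m ≠ 0)
  have hmr : (0:ℝ) < m := by exact_mod_cast hm
  refine ⟨Complex.exp (Complex.log W / m), ?_, fun j hj => ?_⟩
  · rw [← Complex.exp_nat_mul, mul_div_cancel₀ _ hm0, Complex.exp_log h0]
  · rw [← Complex.exp_nat_mul, Complex.exp_re]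
    have harg : |Complex.arg W| ≤ Real.pi / 2 := Complex.abs_arg_le_pi_div_two_iff.2 hW
    have him : ((j : ℂ) * (Complex.log W / m)).im = (j / m : ℝ) * Complex.arg W := by
      have : (j : ℂ) * (Complex.log W / m) = ((j / m : ℝ) : ℂ) * Complex.log W := by
        push_cast
        ring
      rw [this, Complex.im_ofReal_mul, Complex.log_im]
    rw [him]
    have hj1 : (j / m : ℝ) ≤ 1 := by
      rw [div_le_one hmr]
      exact_mod_cast hj.le
    have hj0 : (0:ℝ) ≤ (j / m : ℝ) := by positivity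
    have habs : |(j / m : ℝ) * Complex.arg W| ≤ Real.pi / 2 := by
      rw [abs_mul, abs_of_nonneg hj0]
      calc (j / m : ℝ) * |Complex.arg W| ≤ 1 * |Complex.arg W| := by gcongr
        _ ≤ _ := by rw [one_mul]; exact harg
    rw [abs_le] at habs
    exact mul_nonneg (Real.exp_pos _).le (Real.cos_nonneg_of_mem_Icc ⟨habs.1, habs.2⟩)

lemma root_near {W : ℂ} (hW : 0 ≤ W.re) {m : ℕ} (hm : 1 ≤ m) :
    ∃ w : ℂ, w ^ m = W ∧ ‖1 - w‖ ≤ ‖1 - W‖ := by
  obtain ⟨w, hw, hre⟩ := exists_root_re hW hm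
  refine ⟨w, hw, ?_⟩
  have h1 : (1 - w) * ∑ i ∈ Finset.range m, w ^ i = 1 - W := by
    rw [mul_neg_geom_sum, hw]
  have h2 : 1 ≤ ‖∑ i ∈ Finset.range m, w ^ i‖ := by
    refine le_trans ?_ (Complex.re_le_norm _)
    rw [Complex.re_sum]
    have h3 : (w ^ 0).re ≤ ∑ i ∈ Finset.range m, (w ^ i).re :=
      Finset.single_le_sum (f := fun i => (w ^ i).re)
        (fun i hi => hre i (Finset.mem_range.1 hi)) (Finset.mem_range.2 (by omega))
    simpa using h3
  rw [← h1, norm_mul]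
  exact le_mul_of_one_le_right (norm_nonneg _) h2

lemma orbit_sum {m : ℕ} (hm : 2 ≤ m) (s y c : ℂ) :
    (m : ℝ) * ‖y‖ ≤ ∑ i ∈ Finset.range m, ‖s + ze m ^ i * y - c‖ := by
  have hζ := ze_prim (n := m) (by omega)
  have hζ0 : ze m ≠ 0 := hζ.ne_zero (by omega)
  have hζ1 : ‖ze m‖ = 1 := Complex.norm_eq_one_of_pow_eq_one hζ.pow_eq_one (by omega)
  set ζ := ze m
  have h3 : ∑ k ∈ Finset.range m, ζ⁻¹ ^ k * (s + ζ ^ k * y - c) = m * y := by
    have e : ∀ k ∈ Finset.range m, ζ⁻¹ ^ k * (s + ζ ^ k * y - c) = (s - c) * ζ⁻¹ ^ k + y := by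
      intro k _
      have hk : ζ ^ k * ζ⁻¹ ^ k = 1 := by rw [← mul_pow, mul_inv_cancel₀ hζ0, one_pow]
      linear_combination y * hk
    rw [Finset.sum_congr rfl e, Finset.sum_add_distrib, ← Finset.mul_sum,
      geo (by rw [inv_pow, hζ.pow_eq_one, inv_one]) (fun h => hζ.inv.ne_one (by omega) h)]
    simp
  calc (m:ℝ) * ‖y‖ = ‖(m:ℂ) * y‖ := by rw [norm_mul, Complex.norm_natCast]
    _ = ‖∑ k ∈ Finset.range m, ζ⁻¹ ^ k * (s + ζ ^ k * y - c)‖ := by rw [h3]
    _ ≤ ∑ k ∈ Finset.range m, ‖ζ⁻¹ ^ k * (s + ζ ^ k * y - c)‖ := norm_sum_le _ _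
    _ = _ := by
      apply Finset.sum_congr rfl
      intro k _
      rw [norm_mul, norm_pow, norm_inv, hζ1, inv_one, one_pow, one_mul]

section
variable {F : ℂ[X]} {m : ℕ} {s A y1 y2 : ℂ}

lemma two_roots (hm : 1 ≤ m) (hA : A ≠ 0)
    (hF : F = C A * (((X - C s) ^ m - C (y1 ^ m)) * ((X - C s) ^ m - C (y2 ^ m)))) :
    F.roots = (Multiset.range m).map (fun i => s + ze m ^ i * y1) +
      (Multiset.range m).map (fun i => s + ze m ^ i * y2) := by
  have hζ := ze_prim (n := m) (by omega)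
  have key : ∀ y : ℂ, ((X - C s) ^ m - C (y ^ m) : ℂ[X]) =
      (((Multiset.range m).map (fun i => s + ze m ^ i * y)).map fun a => X - C a).prod := by
    intro y
    have h := X_pow_sub_C_eq_prod hζ (by omega : 0 < m) (α := y) (a := y ^ m) rfl
    have h2 := congrArg (fun p : ℂ[X] => p.comp (X - C s)) h
    simp only [sub_comp, pow_comp, X_comp, C_comp, prod_comp] at h2
    rw [h2, Multiset.map_map]
    change _ = ∏ i ∈ Finset.range m, (X - C (s + ze m ^ i * y))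
    apply Finset.prod_congr rfl
    intro i _
    rw [C_add]
    ring
  rw [hF, roots_C_mul _ hA, key y1, key y2, ← Multiset.prod_add, ← Multiset.map_add,
    roots_multiset_prod_X_sub_C]

lemma two_near (hm : 2 ≤ m) (hn : 2 ≤ F.natDegree)
    (hF : F = C A * (((X - C s) ^ m - C (y1 ^ m)) * ((X - C s) ^ m - C (y2 ^ m)))) {y z : ℂ}
    (hy : y ^ m = y1 ^ m) (hz2 : z ^ m = y2 ^ m) :
    near F (s + y) ≤ (‖y‖ + ‖z‖) / 2 := by
  have hder : ∀ x : ℂ, (derivative F).eval x =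
      A * (m * (x - s) ^ (m - 1) * (2 * (x - s) ^ m - (y1 ^ m + y2 ^ m))) := by
    intro x
    rw [hF]
    simp only [derivative_mul, derivative_sub, derivative_C, derivative_X_sub_C_pow, sub_zero,
      zero_mul, zero_add, eval_mul, eval_C, eval_add, eval_sub, eval_pow, eval_X, eval_natCast]
    ring
  rcases le_or_gt ‖y‖ ‖z‖ with h | h
  · have hs : s ∈ (derivative F).roots := by
      rw [mem_roots (der_ne hn), IsRoot.def, hder, sub_self, zero_pow (by omega)]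
      ring
    refine (near_le hs).trans ?_
    rw [add_sub_cancel_left]
    linarith
  · have hy0 : 0 < ‖y‖ := lt_of_le_of_lt (norm_nonneg _) h
    have hyne : y ≠ 0 := norm_pos_iff.1 hy0
    set ρ : ℝ := ‖z‖ / ‖y‖ with hρ
    have hρ0 : 0 ≤ ρ := by positivity
    have hρ1 : ρ ≤ 1 := by rw [hρ, div_le_one hy0]; exact h.le
    set U : ℂ := (z / y) ^ m with hU
    have hUn : ‖U‖ = ρ ^ m := by rw [hU, norm_pow, norm_div]
    have hU1 : ‖U‖ ≤ ρ := by
      rw [hUn]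
      exact pow_le_of_le_one hρ0 hρ1 (by omega)
    have hre : 0 ≤ ((1 + U) / 2).re := by
      have h1 := Complex.abs_re_le_norm U
      have h2 := neg_abs_le U.re
      have h3 : ((1 + U) / 2).re = (1 + U.re) / 2 := by
        rw [show (1 + U) / 2 = ((1 / 2 : ℝ) : ℂ) * (1 + U) by push_cast; ring,
          Complex.re_ofReal_mul, Complex.add_re, Complex.one_re]
        ring
      rw [h3]
      linarith
    obtain ⟨w, hw, hwn⟩ := root_near hre (by omega : 1 ≤ m)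
    have hyw : (y * w) ^ m = (y1 ^ m + y2 ^ m) / 2 := by
      have hym : y ^ m ≠ 0 := pow_ne_zero _ hyne
      rw [mul_pow, hw, hU, div_pow, hz2, ← hy]
      field_simp
    have hcrit : s + y * w ∈ (derivative F).roots := by
      rw [mem_roots (der_ne hn), IsRoot.def, hder, add_sub_cancel_left, hyw]
      ring
    refine (near_le hcrit).trans ?_
    have e : s + y - (s + y * w) = y * (1 - w) := by ring
    have e2 : 1 - (1 + U) / 2 = (1 - U) / 2 := by ring
    have h5 : ‖1 - w‖ ≤ (1 + ρ) / 2 := by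
      refine hwn.trans ?_
      rw [e2, norm_div, Complex.norm_ofNat]
      have := norm_sub_le (1:ℂ) U
      rw [norm_one] at this
      linarith
    rw [e, norm_mul]
    calc ‖y‖ * ‖1 - w‖ ≤ ‖y‖ * ((1 + ρ) / 2) := by gcongr
      _ = (‖y‖ + ‖z‖) / 2 := by
        rw [hρ]
        field_simp

end

/-- **Borcea's inequality, exponent one, for `A (z - s)^(2m) + B (z - s)^m + D`**, `m ≥ 2`. -/
theorem borcea_two {F : ℂ[X]} {s A B D : ℂ} {m : ℕ} (hm : 2 ≤ m) (hA : A ≠ 0)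
    (hn : F.natDegree = 2 * m)
    (hF : F = C A * (X - C s) ^ (2 * m) + C B * (X - C s) ^ m + C D) :
    hdist F ≤ sigma 1 F := by
  obtain ⟨u1, u2, hsum, hprod⟩ := exists_uv (-B / A) (D / A)
  obtain ⟨y1, hy1⟩ := IsAlgClosed.exists_pow_nat_eq u1 (n := m) (by omega)
  obtain ⟨y2, hy2⟩ := IsAlgClosed.exists_pow_nat_eq u2 (n := m) (by omega)
  have hB : B = -(A * (u1 + u2)) := by rw [hsum]; field_simp
  have hD : D = A * (u1 * u2) := by rw [hprod]; field_simp
  have hF1 : F = C A * (((X - C s) ^ m - C (y1 ^ m)) * ((X - C s) ^ m - C (y2 ^ m))) := by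
    rw [hF, hB, hD, hy1, hy2]
    simp only [C_neg, C_mul, C_add]
    ring
  have hF2 : F = C A * (((X - C s) ^ m - C (y2 ^ m)) * ((X - C s) ^ m - C (y1 ^ m))) := by
    rw [hF1, mul_comm ((X - C s) ^ m - C (y1 ^ m))]
  have hn2 : 2 ≤ F.natDegree := by omega
  have hroots := two_roots (by omega) hA hF1
  have hζ := ze_prim (n := m) (by omega)
  have hζ1 : ‖ze m‖ = 1 := Complex.norm_eq_one_of_pow_eq_one hζ.pow_eq_one (by omega)
  have hpw : ∀ (i : ℕ) (y : ℂ), (ze m ^ i * y) ^ m = y ^ m := by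
    intro i y
    rw [mul_pow, ← pow_mul, mul_comm, mul_comm i m, pow_mul, hζ.pow_eq_one, one_pow, mul_one]
  have hnm : ∀ (i : ℕ) (y : ℂ), ‖ze m ^ i * y‖ = ‖y‖ := by
    intro i y
    rw [norm_mul, norm_pow, hζ1, one_pow, one_mul]
  obtain ⟨z, hz, hzn⟩ := hdist_attained (exists_root hn2)
  have hnear : near F z ≤ (‖y1‖ + ‖y2‖) / 2 := by
    rw [hroots, Multiset.mem_add, Multiset.mem_map, Multiset.mem_map] at hz
    rcases hz with ⟨i, -, rfl⟩ | ⟨i, -, rfl⟩
    · have h := two_near hm hn2 hF1 (hpw i y1) (z := y2) rfl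
      rwa [hnm] at h
    · have h := two_near hm hn2 hF2 (hpw i y2) (z := y1) rfl
      rw [hnm] at h
      linarith
  rw [hzn]
  refine hnear.trans (le_ciInf fun c => ?_)
  unfold pmean
  have h2 : (F.roots.map (fun z => ‖z - c‖ ^ (1:ℝ))).sum =
      ∑ i ∈ Finset.range m, ‖s + ze m ^ i * y1 - c‖ +
        ∑ i ∈ Finset.range m, ‖s + ze m ^ i * y2 - c‖ := by
    rw [hroots, Multiset.map_add, Multiset.sum_add, Multiset.map_map, Multiset.map_map]
    change ∑ i ∈ Finset.range m, ‖s + ze m ^ i * y1 - c‖ ^ (1:ℝ) +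
      ∑ i ∈ Finset.range m, ‖s + ze m ^ i * y2 - c‖ ^ (1:ℝ) = _
    simp only [Real.rpow_one]
  have h3 := orbit_sum hm s y1 c
  have h4 := orbit_sum hm s y2 c
  have hm0 : (0:ℝ) < m := by exact_mod_cast (by omega : 0 < m)
  rw [h2, div_one, Real.rpow_one, hn, one_div_mul_eq_div, le_div_iff₀' (by push_cast; positivity)]
  push_cast
  linarith

lemma two_natDegree {F : ℂ[X]} {s A B D : ℂ} {m : ℕ} (hm : 1 ≤ m) (hA : A ≠ 0)
    (hF : F = C A * (X - C s) ^ (2 * m) + C B * (X - C s) ^ m + C D) :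
    F.natDegree = 2 * m := by
  have h1 : (C A * (X - C s) ^ (2 * m) : ℂ[X]).natDegree = 2 * m := by
    rw [natDegree_C_mul hA, natDegree_pow, natDegree_X_sub_C, mul_one]
  have h2 : (C B * (X - C s) ^ m : ℂ[X]).natDegree ≤ m := by
    refine (natDegree_C_mul_le _ _).trans ?_
    rw [natDegree_pow, natDegree_X_sub_C, mul_one]
  rw [hF, natDegree_add_C, natDegree_add_eq_left_of_natDegree_lt (by rw [h1]; omega), h1]

end Pool.Agent.T2H09.Bor
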